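import Pool.Agent.Lib.MP_07129f_an.DN.Borel

/-!
The extreme points of the closed convex hull of the strongly starlike functions of order less than one are a G_δ set
whose complement in the class is dense; for the orders up to 1/20 they are dense in the class and not an F_σ set.
-/

namespace Pool.Agent.Results.MP_07129f_an.GenericExtreme

open Complex Metric Set Pool.Agent.MP07129f

/-- Let `0 < α < 1` and let `E` be the set of the extreme points of the closed convex hull of the class `S^*(α)`,
for the locally uniform convergence. Then `E` is a `G_δ` set and the functions of the class that are not in `E` are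
dense in the class; if `α ≤ 1 / 20`, then the functions of the class that are in `E` are dense in the class, too, and
`E` is not an `F_σ` set. -/
theorem result (α : ℝ) (hα : 0 < α) (hα1 : α < 1) :
    IsGδ ((closure (convexHull ℝ (SStar α))).extremePoints ℝ) ∧
    Dense {f : SStar α | (f : C(ball (0 : ℂ) 1, ℂ)) ∉
      (closure (convexHull ℝ (SStar α))).extremePoints ℝ} ∧
    (α ≤ 1 / 20 → Dense {f : SStar α | (f : C(ball (0 : ℂ) 1, ℂ)) ∈
      (closure (convexHull ℝ (SStar α))).extremePoints ℝ} ∧
      ¬ IsGδ ((closure (convexHull ℝ (SStar α))).extremePoints ℝ)ᶜ) :=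
  ⟨isGδ_extreme hα hα1, dense_not_extreme hα hα1, fun h => ⟨dense_extreme hα h, not_isFσ_extreme hα h⟩⟩

end Pool.Agent.Results.MP_07129f_an.GenericExtreme
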