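import Pool.Agent.Lib.MP_07129f_an.Cor

/-!
Extreme points of the closed convex hull of the class of strongly starlike functions.
-/

namespace Pool.Agent.Results.MP_07129f_an.InnerExtreme

open Complex Metric Set Pool.Agent.MP07129f

theorem result (α : ℝ) (hα : 0 < α) (hα1 : α < 1) :
    (∀ f ∈ SStar α, ∃ ω : ℂ → ℂ, IsSchwarz ω ∧ Gen α ω f) ∧
    (∀ ω : ℂ → ℂ, IsSchwarz ω → ∃ f ∈ SStar α, Gen α ω f) ∧
    (∀ f ∈ SStar α, ∀ ω : ℂ → ℂ, IsSchwarz ω → Gen α ω f →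
      (f ∈ (closure (convexHull ℝ (SStar α))).extremePoints ℝ → BallExtreme ω) ∧
      (α ≤ 1 / 20 → IsInner ω → f ∈ (closure (convexHull ℝ (SStar α))).extremePoints ℝ) ∧
      (α ≤ 1 / 20 → ∀ R : ℝ, 1 < R → DifferentiableOn ℂ ω (ball 0 R) →
        (f ∈ (closure (convexHull ℝ (SStar α))).extremePoints ℝ ↔
          ∀ θ : ℝ, ‖ω (exp (θ * I))‖ = 1))) := by
  refine ⟨fun f hf => exists_schwarz hα hf, fun ω hω => exists_gen hα hα1 hω,
    fun f hf ω hω hg => ⟨ballExtreme_of_extreme hα hα1 hf hω hg,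
      fun h1 hin => extreme_of_inner hα h1 hf hω hg hin, fun h1 R hR hd => ⟨fun hext => ?_, fun hc =>
        extreme_of_inner hα h1 hf hω hg (inner_of_circle hR hd hc)⟩⟩⟩
  by_contra hcon
  push Not at hcon
  obtain ⟨θ₀, hθ⟩ := hcon
  exact not_ballExtreme hR hd hω.2.2 hθ (ballExtreme_of_extreme hα hα1 hf hω hg hext)

end Pool.Agent.Results.MP_07129f_an.InnerExtreme
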