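import Pool.Agent.Lib.MP_07129f_an.Cor
import Pool.Agent.Lib.MP_07129f_an.TP.Main
import Pool.Agent.Lib.MP_07129f_an.TP.RotE

/-!
Strongly starlike functions of order `α` near `1`: a Schwarz function `ω` which is analytic at two points of
the circle with the value `1` there generates midpoints, and a Schwarz function which is analytic on
the closed disc generates extreme points for all `α` near `1` only if it is a rotation.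
-/

namespace Pool.Agent.Results.MP_07129f_an.NearOne

open Complex Metric Set Filter Topology Pool.Agent.MP07129f

private theorem rot_of_linear {ω : ℂ → ℂ} {R : ℝ} (hR : 1 < R) (hd : DifferentiableOn ℂ ω (ball 0 R))
    (h1 : ‖ω 1‖ = 1) {c : ℂ} (hc : ∀ z ∈ ball (0 : ℂ) 1, ω z = c * z) : ‖c‖ = 1 := by
  have hcont : ContinuousAt ω 1 :=
    (hd.differentiableAt (isOpen_ball.mem_nhds (by simpa using hR))).continuousAt
  have hmem : (1 : ℂ) ∈ closure (ball (0 : ℂ) 1) := by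
    rw [closure_ball _ one_ne_zero]
    simp
  have hne : (𝓝[ball (0 : ℂ) 1] 1).NeBot := mem_closure_iff_nhdsWithin_neBot.1 hmem
  have t1 : Tendsto ω (𝓝[ball (0 : ℂ) 1] 1) (𝓝 (ω 1)) := hcont.tendsto.mono_left nhdsWithin_le_nhds
  have t2 : Tendsto ω (𝓝[ball (0 : ℂ) 1] 1) (𝓝 (c * 1)) := by
    have h2 : Tendsto (fun z : ℂ => c * z) (𝓝[ball (0 : ℂ) 1] 1) (𝓝 (c * 1)) :=
      ((continuous_const.mul continuous_id).tendsto 1).mono_left nhdsWithin_le_nhds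
    refine h2.congr' ?_
    filter_upwards [self_mem_nhdsWithin] with z hz using (hc z hz).symm
  have h3 := tendsto_nhds_unique t1 t2
  rw [mul_one] at h3
  rw [← h3, h1]

theorem result (ω : ℂ → ℂ) (hω : IsSchwarz ω) :
    (∀ w₁ w₂ : ℂ, ‖w₁‖ = 1 → ‖w₂‖ = 1 → w₁ ≠ w₂ → AnalyticAt ℂ ω w₁ → AnalyticAt ℂ ω w₂ →
      ω w₁ = 1 → ω w₂ = 1 →
        ∃ α₀ : ℝ, 0 ≤ α₀ ∧ α₀ < 1 ∧ ∀ α : ℝ, α₀ < α → α < 1 → ∀ f ∈ SStar α, Gen α ω f →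
          (∃ f₁ ∈ SStar α, ∃ f₂ ∈ SStar α, f₁ ≠ f₂ ∧ f = (1 / 2 : ℝ) • f₁ + (1 / 2 : ℝ) • f₂) ∧
          f ∉ (closure (convexHull ℝ (SStar α))).extremePoints ℝ) ∧
    (∀ R : ℝ, 1 < R → DifferentiableOn ℂ ω (ball 0 R) →
      ((∃ c : ℂ, ‖c‖ = 1 ∧ ∀ z ∈ ball (0 : ℂ) 1, ω z = c * z) →
        ∀ α : ℝ, 0 < α → α < 1 → ∀ f ∈ SStar α, Gen α ω f →
          f ∈ (closure (convexHull ℝ (SStar α))).extremePoints ℝ) ∧
      ((¬ ∃ c : ℂ, ‖c‖ = 1 ∧ ∀ z ∈ ball (0 : ℂ) 1, ω z = c * z) →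
        ∃ α₀ : ℝ, 0 ≤ α₀ ∧ α₀ < 1 ∧ ∀ α : ℝ, α₀ < α → α < 1 → ∀ f ∈ SStar α, Gen α ω f →
          f ∉ (closure (convexHull ℝ (SStar α))).extremePoints ℝ)) := by
  have key : ∀ w₁ w₂ : ℂ, ‖w₁‖ = 1 → ‖w₂‖ = 1 → w₁ ≠ w₂ → AnalyticAt ℂ ω w₁ → AnalyticAt ℂ ω w₂ →
      ω w₁ = 1 → ω w₂ = 1 →
        ∃ α₀ : ℝ, 0 ≤ α₀ ∧ α₀ < 1 ∧ ∀ α : ℝ, α₀ < α → α < 1 → ∀ f ∈ SStar α, Gen α ω f →
          (∃ f₁ ∈ SStar α, ∃ f₂ ∈ SStar α, f₁ ≠ f₂ ∧ f = (1 / 2 : ℝ) • f₁ + (1 / 2 : ℝ) • f₂) ∧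
          f ∉ (closure (convexHull ℝ (SStar α))).extremePoints ℝ := by
    intro w₁ w₂ h1 h2 hne ha1 ha2 e1 e2
    obtain ⟨α₀, hα₀, h⟩ := TP.midpoint hω h1 h2 hne ha1 ha2 e1 e2
    refine ⟨max 0 α₀, le_max_left _ _, max_lt one_pos hα₀, fun α hα hα1 f hf hg => ?_⟩
    have h3 := h α ((le_max_left _ _).trans_lt hα) ((le_max_right _ _).trans_lt hα) hα1 f hf hg
    exact ⟨h3, not_extreme_of_midpoint h3⟩
  refine ⟨key, fun R hR hd => ⟨?_, ?_⟩⟩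
  · rintro ⟨c, hc, hlin⟩ α hα hα1 f hf hg
    refine TP.rot_extreme hα hα1 hc hf ?_
    obtain ⟨F, hF, hFd, hF1, hFe⟩ := hg
    exact ⟨F, hF, hFd, hF1, fun z hz => by rw [hFe z hz, hlin z hz]⟩
  · intro hnot
    by_cases hT : ∀ ζ : ℂ, ‖ζ‖ = 1 → ‖ω ζ‖ = 1
    · have hc : ¬ ∃ c : ℂ, ∀ z ∈ ball (0 : ℂ) 1, ω z = c * z := by
        rintro ⟨c, hc⟩
        exact hnot ⟨c, rot_of_linear hR hd (hT 1 norm_one) hc, hc⟩
      obtain ⟨w₁, w₂, h1, h2, hne, e1, e2⟩ := TP.two_points hω hR hd hT hc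
      have hana : ∀ w : ℂ, ‖w‖ = 1 → AnalyticAt ℂ ω w := fun w hw =>
        hd.analyticAt (isOpen_ball.mem_nhds (by rw [mem_ball_zero_iff, hw]; exact hR))
      obtain ⟨α₀, h3, h4, h5⟩ := key w₁ w₂ h1 h2 hne (hana w₁ h1) (hana w₂ h2) e1 e2
      exact ⟨α₀, h3, h4, fun α hα hα1 f hf hg => (h5 α hα hα1 f hf hg).2⟩
    · push Not at hT
      obtain ⟨ζ, hζ, hne⟩ := hT
      have e : exp ((arg ζ : ℝ) * I) = ζ := by
        have := norm_mul_exp_arg_mul_I ζ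
        rw [hζ, ofReal_one, one_mul] at this
        exact this
      refine ⟨0, le_rfl, one_pos, fun α hα hα1 f hf hg hext => ?_⟩
      exact not_ballExtreme hR hd hω.2.2 (θ₀ := arg ζ) (by rw [e]; exact hne)
        (ballExtreme_of_extreme hα hα1 hf hω hg hext)

end Pool.Agent.Results.MP_07129f_an.NearOne
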