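import Pool.Agent.Lib.MP_07129f_an.XP.Main
import Pool.Agent.Lib.MP_07129f_an.XP.ContA
import Pool.Agent.Lib.MP_07129f_an.XP.ContB

/-!
Tame functions with a boundary arc on which `arg (z f' / f)` stays away from both extreme values
are proper midpoints in the class of strongly starlike functions.  Corollaries (below): functions
generated by a Schwarz function continuous on the closed disc.
-/

namespace Pool.Agent.Results.MP_07129f_an.TameMidpoint

open Complex Metric Set Pool.Agent.MP07129f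

theorem result (α : ℝ) (hα : 0 < α) (hα1 : α < 1) :
    ∀ f ∈ SStar α, ∀ (E : Set ℂ) (s : ℂ → ℝ), Tame α f E s →
      (∃ e ∈ sphere (0 : ℂ) 1 \ E, s e = 0) →
        (∃ f₁ ∈ SStar α, ∃ f₂ ∈ SStar α, f₁ ≠ f₂ ∧ f = (1 / 2 : ℝ) • f₁ + (1 / 2 : ℝ) • f₂) ∧
        f ∉ (closure (convexHull ℝ (SStar α))).extremePoints ℝ := by
  intro f hf E s ht ⟨e, he, hse⟩
  have h1 := exists_midpoint hα hα1 hf ht he hse
  exact ⟨h1, not_extreme_of_midpoint h1⟩

/-- the case of a continuous Schwarz function: midpoint -/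
theorem midpoint_of_continuous (α : ℝ) (hα : 0 < α) (hα1 : α < 1) :
    ∀ f ∈ SStar α, ∀ ω : ℂ → ℂ, IsSchwarz ω → Gen α ω f → ContinuousOn ω (closedBall 0 1) →
      FinSign ω → (∃ ζ ∈ sphere (0 : ℂ) 1, ‖ω ζ‖ ≠ 1) →
        ∃ f₁ ∈ SStar α, ∃ f₂ ∈ SStar α, f₁ ≠ f₂ ∧ f = (1 / 2 : ℝ) • f₁ + (1 / 2 : ℝ) • f₂ := by
  rintro f hf ω hω hg hc hs ⟨ζ₀, hζ₀, hne⟩
  obtain ⟨F, l, P, hfF, h, hl⟩ := exists_dat_gen hα hα1 hf hω hg
  obtain ⟨E, s, δ, ht, e, he, hse⟩ := tameL_of_continuous h hω hl hc hs hζ₀ hne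
  exact midpoint_of_tameL hα hα1 hfF h ht he hse

/-- an extreme `f` with continuous `ω` in the class `FinSign` has `|ω| = 1` on the circle -/
theorem norm_eq_one_of_extreme (α : ℝ) (hα : 0 < α) (hα1 : α < 1) :
    ∀ f ∈ SStar α, ∀ ω : ℂ → ℂ, IsSchwarz ω → Gen α ω f → ContinuousOn ω (closedBall 0 1) →
      FinSign ω → f ∈ (closure (convexHull ℝ (SStar α))).extremePoints ℝ →
        ∀ ζ ∈ sphere (0 : ℂ) 1, ‖ω ζ‖ = 1 := by
  intro f hf ω hω hg hc hs hext ζ hζ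
  by_contra hne
  exact not_extreme_of_midpoint (midpoint_of_continuous α hα hα1 f hf ω hω hg hc hs
    ⟨ζ, hζ, hne⟩) hext

/-- for `α ≤ 1 / 20` this is an equivalence -/
theorem extreme_iff_norm_eq_one (α : ℝ) (hα : 0 < α) (hα2 : α ≤ 1 / 20) :
    ∀ f ∈ SStar α, ∀ ω : ℂ → ℂ, IsSchwarz ω → Gen α ω f → ContinuousOn ω (closedBall 0 1) →
      FinSign ω → (f ∈ (closure (convexHull ℝ (SStar α))).extremePoints ℝ ↔
        ∀ ζ ∈ sphere (0 : ℂ) 1, ‖ω ζ‖ = 1) :=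
  fun f hf ω hω hg hc hs => ⟨norm_eq_one_of_extreme α hα (by linarith) f hf ω hω hg hc hs,
    fun h1 => extreme_of_inner hα hα2 hf hω hg (inner_of_continuous hc h1)⟩

end Pool.Agent.Results.MP_07129f_an.TameMidpoint
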